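import Pool.Agent.U529.CV.Top

/-!
# MP_0575cc_nt: the Good-Churchhouse law for the Moebius function times almost every character

Let `q` be a prime. For a Dirichlet character `χ` mod `q` consider the function `μ χ` and its variance
`V(X; H)` in windows of length `H`. For all but a small proportion `C X₀^(-c)` of the characters `χ` mod `q` the
asymptotic formula `V(X; H) = (6/π²) H + O(H X^(-c))` of the problem holds for ALL `X` with `X₀ ≤ X`, `36 X² < q`
and ALL `1 ≤ H ≤ X^(1-ε)` at the same time. More generally, for an arbitrary complex sequence `a(n)`, `|a(n)| ≤ 1`, the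
variance of `a χ` is the mean of the sum of `|a(n)|²` over the window, up to `O(H X^(-c))`, for almost all `χ`.

Proof. The variance minus the diagonal part is a sum over pairs `m ≠ n` at distance `< H`; its second moment over the
characters is a number of pairs of proportional pairs (`m n' = m' n`), since all products are `< q`. Chaining in
`H` (the weights are Lipschitz functions of `H`), and comparison with the intervals between the points `k^L`.
-/

set_option autoImplicit false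

namespace Pool.Agent.Results.MP_0575cc_nt.AlmostAllCharacters

open Finset MeasureTheory

/-- `M(x; H)`: the sum of `f(n)` over the integers `n ≥ 1` with `|n - x| < H / 2` -/
noncomputable def M (f : ℕ → ℂ) (x H : ℝ) : ℂ :=
  ∑ n ∈ (range (⌈x + H⌉₊ + 1)).filter (fun n : ℕ => 1 ≤ n ∧ |(n : ℝ) - x| < H / 2), f n

/-- `V(X; H)`, the mean of `|M(x; H)|²` over `X ≤ x ≤ 2X` -/
noncomputable def V (f : ℕ → ℂ) (X H : ℝ) : ℝ := (1 / X) * ∫ x in X..2 * X, ‖M f x H‖ ^ 2

/-- the mean, over `X ≤ x ≤ 2X`, of the sum of `|f(n)|²` over the integers `n ≥ 1` with `|n - x| < H / 2` -/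
noncomputable def diagonal (f : ℕ → ℂ) (X H : ℝ) : ℝ := (1 / X) * ∫ x in X..2 * X,
  ∑ n ∈ (range (⌈x + H⌉₊ + 1)).filter (fun n : ℕ => 1 ≤ n ∧ |(n : ℝ) - x| < H / 2), ‖f n‖ ^ 2

/-- the function `f χ` -/
noncomputable def twist (f : ℕ → ℂ) {q : ℕ} (χ : DirichletCharacter ℂ q) (n : ℕ) : ℂ := f n * χ (n : ZMod q)

/-- the Moebius function -/
noncomputable def mu (n : ℕ) : ℂ := ((ArithmeticFunction.moebius n : ℤ) : ℂ)

/-- the characters mod `q` for which `|V(X; H) - E(X; H)| ≤ C H X^(-c)`, `V` for the function `f χ`, fails for some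
`X ≥ X₀`, `36 X² < q`, `1 ≤ H ≤ X^(1-ε)` -/
def Exceptional (f : ℕ → ℂ) (E : ℝ → ℝ → ℝ) (ε c C X₀ : ℝ) (q : ℕ) : Set (DirichletCharacter ℂ q) :=
  {χ | ∃ X H : ℝ, X₀ ≤ X ∧ 36 * X ^ 2 < q ∧ 1 ≤ H ∧ H ≤ X ^ (1 - ε) ∧
    C * (H * X ^ (-c)) < |V (twist f χ) X H - E X H|}

/-- For every `ε > 0` there are `c, C > 0` such that for every prime `q` and every `X₀ ≥ 1`:
(1) for every sequence `a` of complex numbers of absolute value at most `1`, for all but at most `C X₀^(-c) (q - 1)` of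
the `q - 1` characters `χ` mod `q`, the variance of `a χ` satisfies `|V(X; H) - diagonal(X; H)| ≤ C H X^(-c)`
for ALL real `X ≥ X₀` with `36 X² < q` and ALL real `1 ≤ H ≤ X^(1-ε)`;
(2) the same for `μ χ` with `(6/π²) H` in place of the diagonal. -/
theorem result (ε : ℝ) (hε : 0 < ε) : ∃ c C : ℝ, 0 < c ∧ 0 < C ∧ ∀ (q : ℕ) [Fact q.Prime] (X₀ : ℝ), 1 ≤ X₀ →
    (∀ a : ℕ → ℂ, (∀ n, ‖a n‖ ≤ 1) →
      ((Exceptional a (diagonal a) ε c C X₀ q).ncard : ℝ) ≤ C * X₀ ^ (-c) * ((q : ℝ) - 1)) ∧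
    ((Exceptional mu (fun _ H => 6 / Real.pi ^ 2 * H) ε c C X₀ q).ncard : ℝ) ≤
      C * X₀ ^ (-c) * ((q : ℝ) - 1) := by
  classical
  obtain ⟨c, C, hc, hc16, hC, hmain⟩ := Pool.Agent.U529.CV.main ε hε
  obtain ⟨C₁, hC₁, hmu⟩ := Pool.Agent.U529.CV.RR_mu
  refine ⟨c, C + C₁, hc, by linarith, fun q hq X₀ hX₀ => ?_⟩
  have hq1 : ((q - 1 : ℕ) : ℝ) = (q : ℝ) - 1 := by
    rw [Nat.cast_sub hq.out.one_lt.le, Nat.cast_one]
  have hq0 : (0 : ℝ) ≤ (q : ℝ) - 1 := by rw [← hq1]; exact Nat.cast_nonneg _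
  have hX00 : 0 < X₀ := by linarith
  have hrp : 0 < X₀ ^ (-c) := Real.rpow_pos_of_pos hX00 _
  -- the translation
  have hV : ∀ (f : ℕ → ℂ) (χ : DirichletCharacter ℂ q) (X H : ℝ), 0 < X →
      V (twist f χ) X H - diagonal f X H = (1 / X) * Pool.Agent.U529.CV.W q f X (2 * X) χ H := by
    intro f χ X H _
    unfold V diagonal Pool.Agent.U529.CV.W Pool.Agent.U529.CV.UU Pool.Agent.U529.CV.RR
    rw [← mul_sub]
    rfl
  have hle : C * X₀ ^ (-c) * ((q : ℝ) - 1) ≤ (C + C₁) * X₀ ^ (-c) * ((q : ℝ) - 1) := by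
    refine mul_le_mul_of_nonneg_right (mul_le_mul_of_nonneg_right (by linarith) hrp.le) hq0
  have key : ∀ (a : ℕ → ℂ), (∀ n, ‖a n‖ ≤ 1) → ∀ S : Set (DirichletCharacter ℂ q),
      (∀ χ ∈ S, ∃ X H : ℝ, X₀ ≤ X ∧ 36 * X ^ 2 < q ∧ 1 ≤ H ∧
        H ≤ X ^ (1 - ε) ∧ C * (H * X * X ^ (-c)) < |Pool.Agent.U529.CV.W q a X (2 * X) χ H|) →
      (S.ncard : ℝ) ≤ (C + C₁) * X₀ ^ (-c) * ((q : ℝ) - 1) := by
    intro a ha S hS
    have h1 := hmain q a ha X₀ hX₀
    rw [hq1] at h1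
    refine le_trans ?_ (h1.trans hle)
    have h2 : S ⊆ ((univ.filter (fun χ : DirichletCharacter ℂ q => ∃ X H : ℝ, X₀ ≤ X ∧ 36 * X ^ 2 < q ∧ 1 ≤ H ∧
        H ≤ X ^ (1 - ε) ∧ C * (H * X * X ^ (-c)) < |Pool.Agent.U529.CV.W q a X (2 * X) χ H|) :
          Finset (DirichletCharacter ℂ q)) : Set (DirichletCharacter ℂ q)) := by
      intro χ hχ
      rw [Finset.mem_coe, Finset.mem_filter]
      exact ⟨mem_univ _, hS χ hχ⟩
    have h3 := Set.ncard_le_ncard h2 (Finset.finite_toSet _)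
    rw [Set.ncard_coe_finset] at h3
    exact_mod_cast h3
  refine ⟨fun a ha => key a ha _ ?_, key mu Pool.Agent.U529.CV.mu_le _ ?_⟩
  · rintro χ ⟨X, H, h1, h2, h3, h4, h5⟩
    refine ⟨X, H, h1, h2, h3, h4, ?_⟩
    have hX : 0 < X := by linarith
    rw [hV a χ X H hX, abs_mul, abs_of_pos (by positivity : 0 < 1 / X), one_div, inv_mul_eq_div,
      lt_div_iff₀ hX] at h5
    refine lt_of_le_of_lt ?_ h5
    have hp : 0 < H * X * X ^ (-c) := by have := Real.rpow_pos_of_pos hX (-c); positivity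
    nlinarith
  · rintro χ ⟨X, H, h1, h2, h3, h4, h5⟩
    refine ⟨X, H, h1, h2, h3, h4, ?_⟩
    have hX1 : 1 ≤ X := by linarith
    have hX : 0 < X := by linarith
    have hHX : H ≤ X := by
      refine h4.trans ?_
      calc X ^ (1 - ε) ≤ X ^ (1 : ℝ) := Real.rpow_le_rpow_of_exponent_le hX1 (by linarith)
        _ = X := Real.rpow_one X
    have h6 := hmu X H hX1 h3 hHX
    have h7 : X ^ (-(1 / 4 : ℝ)) ≤ X ^ (-c) := Real.rpow_le_rpow_of_exponent_le hX1 (by linarith)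
    have h8 : |Pool.Agent.U529.CV.RR Pool.Agent.U529.CV.mu X (2 * X) H - 6 / Real.pi ^ 2 * H * X| ≤
        C₁ * (H * X * X ^ (-c)) := by
      refine h6.trans (mul_le_mul_of_nonneg_left ?_ hC₁.le)
      exact mul_le_mul_of_nonneg_left h7 (by positivity)
    have e1 : X * (V (twist mu χ) X H - 6 / Real.pi ^ 2 * H) =
        Pool.Agent.U529.CV.W q mu X (2 * X) χ H +
          (Pool.Agent.U529.CV.RR Pool.Agent.U529.CV.mu X (2 * X) H - 6 / Real.pi ^ 2 * H * X) := by
      have h9 := hV mu χ X H hX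
      have h10 : X * diagonal mu X H = Pool.Agent.U529.CV.RR Pool.Agent.U529.CV.mu X (2 * X) H := by
        unfold diagonal Pool.Agent.U529.CV.RR
        rw [← mul_assoc, mul_one_div_cancel hX.ne', one_mul]
        rfl
      rw [← h10]
      have h11 : X * (V (twist mu χ) X H - diagonal mu X H) = Pool.Agent.U529.CV.W q mu X (2 * X) χ H := by
        rw [h9, ← mul_assoc, mul_one_div_cancel hX.ne', one_mul]
      linarith
    have h12 : (C + C₁) * (H * X * X ^ (-c)) < |X * (V (twist mu χ) X H - 6 / Real.pi ^ 2 * H)| := by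
      rw [abs_mul, abs_of_pos hX]
      have := mul_lt_mul_of_pos_left h5 hX
      calc (C + C₁) * (H * X * X ^ (-c)) = X * ((C + C₁) * (H * X ^ (-c))) := by ring
        _ < _ := this
    rw [e1] at h12
    have h13 := abs_add_le (Pool.Agent.U529.CV.W q mu X (2 * X) χ H)
      (Pool.Agent.U529.CV.RR Pool.Agent.U529.CV.mu X (2 * X) H - 6 / Real.pi ^ 2 * H * X)
    have h14 : (C + C₁) * (H * X * X ^ (-c)) = C * (H * X * X ^ (-c)) + C₁ * (H * X * X ^ (-c)) := by ring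
    linarith

end Pool.Agent.Results.MP_0575cc_nt.AlmostAllCharacters
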