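import Pool.Agent.R303.SW.Mo

/-!
# The Good-Churchhouse variance along one sequence decides the Riemann hypothesis

Let `M(x; H)` be the sum of `μ(n)` over `|n - x| < H / 2` and `V(X; H) = (1/X) ∫_X^{2X} |M(x; H)|² dx`.  Good and
Churchhouse conjecture `V(X; H) ∼ H / ζ(2)` for `X^ε < H < X^(1-ε)`.

1. If `ζ` has a zero with real part `> θ ≥ 1/2`, then for EVERY large `X` and EVERY `H ≤ X^(1-ε)` the mean of
`|M(x; H)|²` over the short window `X ≤ x ≤ X + c X / (log X)^κ` (`4 θ (1 - θ) (κ + 1) ≤ 1`) is at least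
`H² X^(2θ-2)`.

2. So, if the Riemann hypothesis is false, then the conjecture fails at every large `X`, for all `H` in a whole range:
if a zero has real part `> θ > 1/2` then `V(X; H) ≥ H X^ε` for all large `X` and all `H` with
`X^(2-2θ+ε) ≤ H ≤ X^(1-ε)`.

3. The half plane `Re s > θ` is free of zeros if and only if for all `δ > 0` there is `ε > 0` such that
`V(X; H) ≤ H² X^(2θ-2+δ)` for ONE sequence of `X → ∞` with one `H ≤ X^(1-ε)` each, and if and only if this is so for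
all large `X` and all `H` between `X^(1-δ/8)` and `X`.

4. The Riemann hypothesis is true if and only if for all `δ > 0` there is `ε > 0` such that `V(X; H) ≤ H X^δ` for one
sequence of `X → ∞` with one `H` between `X^(1-δ)` and `X^(1-ε)` each.
-/

set_option autoImplicit false

open MeasureTheory Filter Topology

namespace Pool.Agent.Results.MP_0575cc_nt.RHAtOneSequence

/-- `M(x; H)`, the sum of `μ(n)` over the `n ≥ 1` with `|n - x| < H / 2` (the term `n = 0` is `0`) -/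
noncomputable def M (x H : ℝ) : ℝ :=
  ∑ n ∈ (Finset.range (⌈x + H⌉₊ + 1)).filter (fun n : ℕ => |(n : ℝ) - x| < H / 2),
    ((ArithmeticFunction.moebius n : ℤ) : ℝ)

/-- the mean of `M(x; H)²` over `X ≤ x ≤ Y` -/
noncomputable def Mean (X Y H : ℝ) : ℝ := (1 / (Y - X)) * ∫ x in X..Y, M x H ^ 2

/-- `V(X; H)`, the mean of `M(x; H)²` over `X ≤ x ≤ 2X` -/
noncomputable def V (X H : ℝ) : ℝ := (1 / X) * ∫ x in X..2 * X, M x H ^ 2

open Pool.Agent.R303.SW in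
lemma int_M {X Y H : ℝ} (hH : 0 < H) (hX : H / 2 ≤ X) (hXY : X ≤ Y) :
    ∫ x in X..Y, M x H ^ 2 = ∫ x in X..Y, DF muR H x ^ 2 := by
  apply intervalIntegral.integral_congr_ae
  filter_upwards [ae_not_nat H] with x hx hxI
  rw [Set.uIoc_of_le hXY] at hxI
  have h1 : M x H = DF muR H x := open_window muR (by simp [muR]) hH (by linarith [hxI.1]) hx
  rw [h1]

lemma V_eq (X H : ℝ) : V X H = Mean X (2 * X) H := by
  unfold V Mean
  rw [show 2 * X - X = X by ring]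

open Pool.Agent.R303.SW in
/-- the lower bound for the means over short windows -/
lemma low (θ κ c ε : ℝ) (hθ : 1 / 2 ≤ θ) (hκ : 0 ≤ κ) (hcond : 4 * θ * (1 - θ) * (κ + 1) ≤ 1)
    (hc : 0 < c) (hε : 0 < ε) (hε1 : ε < 1) (hz : ∃ s : ℂ, riemannZeta s = 0 ∧ θ < s.re) :
    ∀ᶠ X : ℝ in atTop, ∀ H : ℝ, 0 < H → H ≤ X ^ (1 - ε) →
      H ^ 2 * X ^ (2 * θ - 2) ≤ Mean X (X + c * X / Real.log X ^ κ) H := by
  obtain ⟨s, hs, hsθ⟩ := hz
  obtain ⟨θ', hθ'⟩ : ∃ θ', θ' = (θ + s.re) / 2 := ⟨_, rfl⟩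
  have hθ1 : θ < θ' := by rw [hθ']; linarith
  have hθ2 : θ' < s.re := by rw [hθ']; linarith
  have hcond' : 4 * θ' * (1 - θ') * (κ + 1) ≤ 1 := by
    refine le_trans ?_ hcond
    refine mul_le_mul_of_nonneg_right ?_ (by linarith)
    nlinarith
  have h1 := mu_DF θ' κ c ε (by linarith) hκ hcond' hc hε hε1 ⟨s, hs, hθ2⟩
  have t1 : ∀ᶠ X : ℝ in atTop, c ≤ X ^ (θ' - θ) :=
    (tendsto_rpow_atTop (by linarith)).eventually_ge_atTop _
  filter_upwards [h1, t1, eventually_ge_atTop 1, Real.tendsto_log_atTop.eventually_ge_atTop 1] with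
    X g1 g2 g3 g4 H hH hH1
  have hX : 0 < X := by linarith
  have hHX : H ≤ X := by
    refine hH1.trans ?_
    conv_rhs => rw [← Real.rpow_one X]
    exact Real.rpow_le_rpow_of_exponent_le g3 (by linarith)
  have hL : 1 ≤ Real.log X ^ κ := Real.one_le_rpow g4 hκ
  have hL0 : 0 < Real.log X ^ κ := by linarith
  obtain ⟨W, hW⟩ : ∃ W, W = c * X / Real.log X ^ κ := ⟨_, rfl⟩
  have hW0 : 0 < W := by rw [hW]; positivity
  have hWc : W ≤ c * X := by
    rw [hW]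
    exact div_le_self (by positivity) hL
  have k1 := g1 H hH hH1
  rw [← hW] at k1 ⊢
  have hI1 : IntervalIntegrable (fun x => |DF muR H x|) volume X (X + W) := by
    have := DF_II muR H 0 X (X + W)
    simp only [sub_zero] at this
    exact this.abs
  have hI2 : IntervalIntegrable (fun x => DF muR H x ^ 2) volume X (X + W) := by
    have := DF_II2 muR H 0 X (X + W)
    simpa only [sub_zero] using this
  have k2 := cs_int (by linarith : X < X + W) hI1 hI2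
  rw [← int_M hH (by linarith) (by linarith)] at k2
  refine le_trans ?_ k2
  rw [show X + W - X = W by ring]
  have h5 : H * X ^ (θ - 1) ≤ 1 / W * ∫ x in X..X + W, |DF muR H x| := by
    rw [div_mul_eq_mul_div, one_mul, le_div_iff₀ hW0]
    refine le_trans ?_ k1
    have e1 : X ^ (θ - 1) * (c * X) ≤ X ^ θ' := by
      have e2 : X ^ (θ - 1) * X = X ^ θ := by
        rw [← Real.rpow_add_one hX.ne']
        congr 1
        ring
      have e3 : X ^ θ * X ^ (θ' - θ) = X ^ θ' := by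
        rw [← Real.rpow_add hX]
        congr 1
        ring
      calc X ^ (θ - 1) * (c * X) = c * (X ^ (θ - 1) * X) := by ring
        _ = c * X ^ θ := by rw [e2]
        _ ≤ X ^ (θ' - θ) * X ^ θ := mul_le_mul_of_nonneg_right g2 (by positivity)
        _ = X ^ θ' := by rw [mul_comm, e3]
    calc H * X ^ (θ - 1) * W ≤ H * X ^ (θ - 1) * (c * X) := by gcongr
      _ = H * (X ^ (θ - 1) * (c * X)) := by ring
      _ ≤ H * X ^ θ' := mul_le_mul_of_nonneg_left e1 hH.le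
  have h6 : H ^ 2 * X ^ (2 * θ - 2) = (H * X ^ (θ - 1)) ^ 2 := by
    rw [mul_pow, ← Real.rpow_natCast (X ^ (θ - 1)) 2, ← Real.rpow_mul hX.le]
    congr 2
    push_cast
    ring
  rw [h6]
  exact pow_le_pow_left₀ (by positivity) h5 2

lemma lowV (θ ε : ℝ) (hθ : 1 / 2 ≤ θ) (hε : 0 < ε) (hε1 : ε < 1)
    (hz : ∃ s : ℂ, riemannZeta s = 0 ∧ θ < s.re) :
    ∀ᶠ X : ℝ in atTop, ∀ H : ℝ, 0 < H → H ≤ X ^ (1 - ε) → H ^ 2 * X ^ (2 * θ - 2) ≤ V X H := by
  filter_upwards [low θ 0 1 ε hθ le_rfl (by nlinarith [sq_nonneg (2 * θ - 1)]) one_pos hε hε1 hz] with X h H hH hH1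
  have h1 := h H hH hH1
  rw [Real.rpow_zero, div_one, one_mul] at h1
  rw [V_eq, two_mul X]
  exact h1

open Pool.Agent.R303.SW in
/-- the upper bound -/
lemma up (θ δ : ℝ) (hθ : 1 / 2 ≤ θ) (hδ : 0 < δ) (hz : ∀ s : ℂ, θ < s.re → riemannZeta s ≠ 0) :
    ∀ᶠ X : ℝ in atTop, ∀ H : ℝ, 0 < H → H ≤ X → V X H ≤ X ^ (2 * θ + δ) := by
  obtain ⟨θ', hθ'⟩ : ∃ θ', θ' = θ + δ / 4 := ⟨_, rfl⟩
  obtain ⟨C, hC'⟩ := H353.mertens_of_free θ hθ hz θ' (by linarith)
  have hC0 : 0 ≤ C := by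
    have := (abs_nonneg _).trans (hC' 1 le_rfl)
    simpa using this
  have hθ0 : 0 ≤ θ' := by linarith
  have t1 : ∀ᶠ X : ℝ in atTop, (2 * (C * 3 ^ θ')) ^ 2 ≤ X ^ (δ / 2) :=
    (tendsto_rpow_atTop (by linarith)).eventually_ge_atTop _
  filter_upwards [t1, eventually_ge_atTop 1] with X g1 g2 H hH hHX
  have hX : 0 < X := by linarith
  have hS : ∀ y : ℝ, y ≤ 3 * X → |Pool.Agent.W190.SF muR y| ≤ C * (3 * X) ^ θ' := by
    intro y hy
    by_cases h1 : 1 ≤ y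
    · refine (hC' y h1).trans ?_
      exact mul_le_mul_of_nonneg_left (Real.rpow_le_rpow (by linarith) hy hθ0) hC0
    · have h2 : ⌊y⌋₊ = 0 := Nat.floor_eq_zero.2 (not_le.1 h1)
      unfold Pool.Agent.W190.SF
      rw [h2]
      simp only [Finset.Icc_eq_empty (show ¬ (1:ℕ) ≤ 0 by norm_num), Finset.sum_empty, abs_zero]
      positivity
  have hB : ∀ x ∈ Set.Icc X (2 * X), DF muR H x ^ 2 ≤ (2 * (C * (3 * X) ^ θ')) ^ 2 := by
    intro x hx
    rw [← sq_abs]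
    refine pow_le_pow_left₀ (abs_nonneg _) ?_ 2
    unfold DF
    refine (abs_sub _ _).trans ?_
    have e1 := hS (x + H / 2) (by linarith [hx.2])
    have e2 := hS (x - H / 2) (by linarith [hx.2])
    linarith
  have hI2 : IntervalIntegrable (fun x => DF muR H x ^ 2) volume X (2 * X) := by
    have := DF_II2 muR H 0 X (2 * X)
    simpa only [sub_zero] using this
  unfold V
  rw [int_M hH (by linarith) (by linarith)]
  have h3 := intervalIntegral.integral_mono_on (by linarith : X ≤ 2 * X) hI2 intervalIntegrable_const hB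
  rw [intervalIntegral.integral_const, smul_eq_mul, show 2 * X - X = X by ring] at h3
  have h4 : (2 * (C * (3 * X) ^ θ')) ^ 2 ≤ X ^ (2 * θ + δ) := by
    rw [Real.mul_rpow (by norm_num) hX.le]
    have e3 : (2 * (C * (3 ^ θ' * X ^ θ'))) ^ 2 = (2 * (C * 3 ^ θ')) ^ 2 * (X ^ θ') ^ 2 := by ring
    have e4 : (X ^ θ') ^ 2 = X ^ (2 * θ + δ / 2) := by
      rw [← Real.rpow_natCast, ← Real.rpow_mul hX.le]
      congr 1
      push_cast
      rw [hθ']
      ring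
    rw [e3, e4]
    calc (2 * (C * 3 ^ θ')) ^ 2 * X ^ (2 * θ + δ / 2) ≤ X ^ (δ / 2) * X ^ (2 * θ + δ / 2) := by gcongr
      _ = X ^ (2 * θ + δ) := by
        rw [← Real.rpow_add hX]
        congr 1
        ring
  calc 1 / X * ∫ x in X..2 * X, DF muR H x ^ 2 ≤ 1 / X * (X * (2 * (C * (3 * X) ^ θ')) ^ 2) :=
        mul_le_mul_of_nonneg_left h3 (by positivity)
    _ = (2 * (C * (3 * X) ^ θ')) ^ 2 := by field_simp
    _ ≤ _ := h4

/-- the upper bound in terms of `H` -/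
lemma up2 (θ δ : ℝ) (hθ : 1 / 2 ≤ θ) (hδ : 0 < δ) (hz : ∀ s : ℂ, θ < s.re → riemannZeta s ≠ 0) :
    ∀ᶠ X : ℝ in atTop, ∀ H : ℝ, X ^ (1 - δ / 8) ≤ H → H ≤ X → V X H ≤ H ^ 2 * X ^ (2 * θ - 2 + δ) := by
  filter_upwards [up θ (3 * δ / 4) hθ (by linarith) hz, eventually_ge_atTop 1] with X h g H hH1 hH2
  have hX : 0 < X := by linarith
  have hH0 : 0 < H := (Real.rpow_pos_of_pos hX _).trans_le hH1
  refine (h H hH0 hH2).trans ?_
  have e1 : X ^ (2 - δ / 4) ≤ H ^ 2 := by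
    have : X ^ (2 - δ / 4) = (X ^ (1 - δ / 8)) ^ 2 := by
      rw [← Real.rpow_natCast, ← Real.rpow_mul hX.le]
      congr 1
      push_cast
      ring
    rw [this]
    exact pow_le_pow_left₀ (by positivity) hH1 2
  calc X ^ (2 * θ + 3 * δ / 4) = X ^ (2 - δ / 4) * X ^ (2 * θ - 2 + δ) := by
        rw [← Real.rpow_add hX]
        congr 1
        ring
    _ ≤ _ := by gcongr

/-- one sequence is enough -/
lemma one_seq (θ : ℝ) (hθ : 1 / 2 ≤ θ)
    (h : ∀ δ : ℝ, 0 < δ → ∃ ε : ℝ, 0 < ε ∧ ∃ᶠ X : ℝ in atTop, ∃ H : ℝ,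
      0 < H ∧ H ≤ X ^ (1 - ε) ∧ V X H ≤ H ^ 2 * X ^ (2 * θ - 2 + δ)) :
    ∀ s : ℂ, θ < s.re → riemannZeta s ≠ 0 := by
  intro s hs h0
  obtain ⟨θ₂, hθ₂⟩ : ∃ θ₂, θ₂ = (θ + s.re) / 2 := ⟨_, rfl⟩
  obtain ⟨ε, hε, hfr⟩ := h (θ₂ - θ) (by linarith)
  have hlow := lowV θ₂ (min ε (1 / 2)) (by linarith) (lt_min hε (by norm_num))
    ((min_le_right _ _).trans_lt (by norm_num)) ⟨s, h0, by linarith⟩
  obtain ⟨X, ⟨H, hH0, hH1, hH2⟩, h3, h4⟩ := (hfr.and_eventually (hlow.and (eventually_gt_atTop 1))).exists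
  have hX : 0 < X := by linarith
  have h5 : H ≤ X ^ (1 - min ε (1 / 2)) :=
    hH1.trans (Real.rpow_le_rpow_of_exponent_le h4.le (by linarith [min_le_left ε (1 / 2)]))
  have h6 := h3 H hH0 h5
  have h7 : X ^ (2 * θ - 2 + (θ₂ - θ)) < X ^ (2 * θ₂ - 2) :=
    Real.rpow_lt_rpow_of_exponent_lt h4 (by linarith)
  have h8 : 0 < H ^ 2 := by positivity
  nlinarith

/-- **The Good-Churchhouse variance along one sequence decides the Riemann hypothesis.** -/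
theorem result :
    -- 1. the lower bound, for every `X` and every `H`, over short windows
    (∀ θ κ c ε : ℝ, 1 / 2 ≤ θ → 0 ≤ κ → 4 * θ * (1 - θ) * (κ + 1) ≤ 1 → 0 < c → 0 < ε → ε < 1 →
      (∃ s : ℂ, riemannZeta s = 0 ∧ θ < s.re) →
      ∀ᶠ X : ℝ in atTop, ∀ H : ℝ, 0 < H → H ≤ X ^ (1 - ε) →
        H ^ 2 * X ^ (2 * θ - 2) ≤ Mean X (X + c * X / Real.log X ^ κ) H) ∧
    -- 2. the failure of the conjecture at every `X` if the Riemann hypothesis is false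
    (∀ θ ε : ℝ, 1 / 2 ≤ θ → 0 < ε → ε < 1 → (∃ s : ℂ, riemannZeta s = 0 ∧ θ < s.re) →
      ∀ᶠ X : ℝ in atTop, ∀ H : ℝ, X ^ (2 - 2 * θ + ε) ≤ H → H ≤ X ^ (1 - ε) → H * X ^ ε ≤ V X H) ∧
    -- 3. half planes without zeros
    (∀ θ : ℝ, 1 / 2 ≤ θ →
      ((∀ s : ℂ, θ < s.re → riemannZeta s ≠ 0) ↔
        ∀ δ : ℝ, 0 < δ → ∃ ε : ℝ, 0 < ε ∧ ∃ᶠ X : ℝ in atTop, ∃ H : ℝ,
          0 < H ∧ H ≤ X ^ (1 - ε) ∧ V X H ≤ H ^ 2 * X ^ (2 * θ - 2 + δ)) ∧
      ((∀ s : ℂ, θ < s.re → riemannZeta s ≠ 0) ↔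
        ∀ δ : ℝ, 0 < δ → ∀ᶠ X : ℝ in atTop, ∀ H : ℝ,
          X ^ (1 - δ / 8) ≤ H → H ≤ X → V X H ≤ H ^ 2 * X ^ (2 * θ - 2 + δ))) ∧
    -- 4. the Riemann hypothesis
    (RiemannHypothesis ↔
      ∀ δ : ℝ, 0 < δ → ∃ ε : ℝ, 0 < ε ∧ ∃ᶠ X : ℝ in atTop, ∃ H : ℝ,
        X ^ (1 - δ) ≤ H ∧ H ≤ X ^ (1 - ε) ∧ V X H ≤ H * X ^ δ) := by
  have hall : ∀ θ : ℝ, 1 / 2 ≤ θ →
      (∀ δ : ℝ, 0 < δ → ∀ᶠ X : ℝ in atTop, ∀ H : ℝ,
          X ^ (1 - δ / 8) ≤ H → H ≤ X → V X H ≤ H ^ 2 * X ^ (2 * θ - 2 + δ)) →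
      ∀ δ : ℝ, 0 < δ → ∃ ε : ℝ, 0 < ε ∧ ∃ᶠ X : ℝ in atTop, ∃ H : ℝ,
          0 < H ∧ H ≤ X ^ (1 - ε) ∧ V X H ≤ H ^ 2 * X ^ (2 * θ - 2 + δ) := by
    intro θ _ h δ hδ
    refine ⟨δ / 8, by linarith, ?_⟩
    apply Eventually.frequently
    filter_upwards [h δ hδ, eventually_ge_atTop 1] with X h1 h2
    have hX : 0 < X := by linarith
    refine ⟨X ^ (1 - δ / 8), Real.rpow_pos_of_pos hX _, le_rfl, h1 _ le_rfl ?_⟩
    conv_rhs => rw [← Real.rpow_one X]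
    exact Real.rpow_le_rpow_of_exponent_le h2 (by linarith)
  refine ⟨fun θ κ c ε h1 h2 h3 h4 h5 h6 h7 => low θ κ c ε h1 h2 h3 h4 h5 h6 h7, ?_, ?_, ?_⟩
  · intro θ ε hθ hε hε1 hz
    filter_upwards [lowV θ ε hθ hε hε1 hz, eventually_ge_atTop 1] with X h1 h2 H hH1 hH2
    have hX : 0 < X := by linarith
    have hH0 : 0 < H := (Real.rpow_pos_of_pos hX _).trans_le hH1
    refine le_trans ?_ (h1 H hH0 hH2)
    have e1 : X ^ ε = X ^ (2 - 2 * θ + ε) * X ^ (2 * θ - 2) := by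
      rw [← Real.rpow_add hX]
      congr 1
      ring
    rw [e1, sq]
    calc H * (X ^ (2 - 2 * θ + ε) * X ^ (2 * θ - 2)) ≤ H * (H * X ^ (2 * θ - 2)) := by gcongr
      _ = H * H * X ^ (2 * θ - 2) := by ring
  · intro θ hθ
    refine ⟨⟨fun h => ?_, fun h => one_seq θ hθ h⟩, ⟨fun h δ hδ => up2 θ δ hθ hδ h, fun h => ?_⟩⟩
    · exact hall θ hθ fun δ hδ => up2 θ δ hθ hδ h
    · exact one_seq θ hθ (hall θ hθ h)
  · rw [Pool.Agent.W190.rh_free]
    constructor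
    · intro h δ hδ
      refine ⟨min (δ / 4) (1 / 2), lt_min (by linarith) (by norm_num), ?_⟩
      apply Eventually.frequently
      filter_upwards [up (1 / 2) (δ / 2) le_rfl (by linarith) h, eventually_ge_atTop 1] with X h1 h2
      have hX : 0 < X := by linarith
      have hm := min_le_left (δ / 4) (1 / 2)
      have hm0 : 0 < min (δ / 4) (1 / 2) := lt_min (by linarith) (by norm_num)
      refine ⟨X ^ (1 - min (δ / 4) (1 / 2)), Real.rpow_le_rpow_of_exponent_le h2 (by linarith), le_rfl, ?_⟩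
      refine (h1 _ (Real.rpow_pos_of_pos hX _) ?_).trans ?_
      · conv_rhs => rw [← Real.rpow_one X]
        exact Real.rpow_le_rpow_of_exponent_le h2 (by linarith)
      · rw [← Real.rpow_add hX]
        exact Real.rpow_le_rpow_of_exponent_le h2 (by linarith)
    · intro h
      refine one_seq (1 / 2) le_rfl fun δ hδ => ?_
      obtain ⟨ε, hε, hfr⟩ := h (δ / 2) (by linarith)
      refine ⟨ε, hε, ?_⟩
      refine (hfr.and_eventually (eventually_ge_atTop 1)).mono ?_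
      rintro X ⟨⟨H, hH1, hH2, hH3⟩, h2⟩
      have hX : 0 < X := by linarith
      have hH0 : 0 < H := (Real.rpow_pos_of_pos hX _).trans_le hH1
      refine ⟨H, hH0, hH2, hH3.trans ?_⟩
      have e1 : X ^ (δ / 2) = X ^ (1 - δ / 2) * X ^ (2 * (1 / 2) - 2 + δ) := by
        rw [← Real.rpow_add hX]
        congr 1
        ring
      rw [e1, sq]
      calc H * (X ^ (1 - δ / 2) * X ^ (2 * (1 / 2) - 2 + δ)) ≤ H * (H * X ^ (2 * (1 / 2) - 2 + δ)) := by gcongr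
        _ = H * H * X ^ (2 * (1 / 2) - 2 + δ) := by ring

end Pool.Agent.Results.MP_0575cc_nt.RHAtOneSequence
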