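import Pool.Agent.U585.GC.Fin

/-!
# MP_0575cc_nt: the Good-Churchhouse law holds almost surely in the random model, for all windows

In the random model of the Moebius function (Wintner) the values `μ(p) = -1` are replaced by
independent random signs `f p` (each sign with probability `1/2`) and `μ` by the random function
supported on the squarefree integers with the value `∏_{p ∣ n} f p` at `n`. The theorem: almost surely
the variance in windows of length `H` satisfies
`|V(X; H) - (6/π²) H| ≤ C X^ε H (H / X)^(1/2)` *for all* `1 ≤ H ≤ X` and every `ε > 0` (with `C`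
depending on the sample and on `ε` only); so the asymptotics of the problem hold, with a power
saving, for all functions `H(X)` at once.
-/

set_option autoImplicit false

namespace Pool.Agent.Results.MP_0575cc_nt.RandomModelAllWindows

open MeasureTheory Filter Topology ProbabilityTheory

/-- the function on the integers supported on the squarefree ones, with the value
`∏_{p ∣ n} s p` at `n`; for `s = -1` it is the Moebius function -/
noncomputable def mult (s : ℕ → ℝ) (n : ℕ) : ℝ :=
  open Classical in if Squarefree n then ∏ p ∈ n.primeFactors, s p else 0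

/-- `M(x; H)`: the sum over the integers `n ≥ 1` with `|n - x| < H / 2` (the term at `0` is `0`) -/
noncomputable def M (s : ℕ → ℝ) (x H : ℝ) : ℝ :=
  ∑ n ∈ (Finset.range (⌈x + H⌉₊ + 1)).filter (fun n : ℕ => |(n : ℝ) - x| < H / 2), mult s n

/-- `V(X; H)`, the mean of `M(x; H)²` over `X ≤ x ≤ 2X` -/
noncomputable def V (s : ℕ → ℝ) (X H : ℝ) : ℝ := (1 / X) * ∫ x in X..2 * X, M s x H ^ 2

/-- Almost surely the Good-Churchhouse law holds for the random multiplicative function on the
squarefree integers with independent symmetric signs at the primes, with the relative error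
`O(X^ε (H/X)^(1/2))`, for all `1 ≤ H ≤ X`, hence for all functions `H(X)` as in the problem. -/
theorem result (Ω : Type) [MeasurableSpace Ω] (P : Measure Ω) [IsProbabilityMeasure P]
    (f : ℕ → Ω → ℝ) (hmeas : ∀ p, Measurable (f p)) (hind : iIndepFun f P)
    (hval : ∀ p ω, f p ω = 1 ∨ f p ω = -1) (hmean : ∀ p, ∫ ω, f p ω ∂P = 0) :
    ∀ᵐ ω ∂P,
      (∀ ε : ℝ, 0 < ε → ∃ C : ℝ, ∀ X H : ℝ, 1 ≤ H → H ≤ X →
        |V (fun p => f p ω) X H - 6 / Real.pi ^ 2 * H| ≤ C * (X ^ ε * Real.sqrt (H ^ 3 / X))) ∧
      (∀ ε : ℝ, 0 < ε → ∀ H : ℝ → ℝ, (∀ᶠ X in atTop, X ^ ε < H X ∧ H X < X ^ (1 - ε)) →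
        Tendsto (fun X : ℝ => V (fun p => f p ω) X (H X) / (H X / (Real.pi ^ 2 / 6)))
          atTop (𝓝 1)) := by
  filter_upwards [Pool.Agent.U585.GC.main (⟨hmeas, hind, hval, hmean⟩ :
    Pool.Agent.U585.GC.Signs P f)] with ω hω
  exact ⟨hω, fun ε hε H hH => Pool.Agent.U585.GC.of_main hω ε hε H hH⟩

end Pool.Agent.Results.MP_0575cc_nt.RandomModelAllWindows
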